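import Pool.Agent.V5helper60.AF.Final

/-!
# Tate's conjecture on the pole: the fixed field of one automorphism

`X` is a smooth projective variety of dimension `d` over a number field `K`, `V = A^m(X) ⊗ ℚ` the space of
the classes of the algebraic cycles of codimension `m` defined over the algebraic closure, and `s` the
number of the eigenvalues of Frobenius on `H^{2m}(X)` that do not come from `V`.  Suppose that Tate's
conjecture (the rank of `A^m(X_F)` is the order of the pole of `L(H^{2m}(X_F), s)` at `s = m + 1`) is
false, or that the order is not defined, for a finite extension `F₀` of `K`.  Then there is ONE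
automorphism `σ` of the algebraic closure such that its fixed field `M`, which contains `F₀`, is CRITICAL:
the conjecture fails for arbitrarily large finite extensions `F` of `K` inside `M`, and for every field
larger than `M` (for instance the fixed field of a power of `σ`) it is true for all sufficiently large finite
extensions inside this field.

Moreover the failure over `M` is small if `M` has many extensions: if `M` has a finite Galois extension of
degree `n`, then for all large `F` inside `M` the exponent `log |L(m + 1 + ε)| / log(1/ε)` differs from the
rank by at most `s φ(n)/n + o(1)` for `ε → 0+`, where `φ(n)/n` is the product of the `1 - 1/p` over the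
primes `p` dividing `n`.  If `s φ(n) < n`, then for all large `F` inside `M` the order of the pole, if it is
defined, is the rank, so that the conjecture can only fail because the order is not defined.  If the orders
are always defined, the product of the `1 - 1/p` over all primes `p` dividing the degrees of the extensions of `M`
is therefore at least `1/s`; for `s = 1` the field `M` is algebraically closed.

The proof.  The property of `M` that the conjecture fails for arbitrarily large finite extensions inside `M`
is inherited by the unions of chains, so there are maximal fields `M` with this property.  Let `L / K` be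
finite and Galois.  By the maximality of `M`, for all large `F` inside `M` the conjecture holds over each
field `Y` with `F < Y ≤ F L`.  Relations between permutation characters of `Gal(F L/F)` give relations
between the `L`-functions and between the ranks, up to a factor that is holomorphic and not zero at `m + 1`;
so Artin's induction theorem shows that `Gal(F L/F)` is cyclic for arbitrarily large `F`, and the compactness
of the Galois group gives `σ`.  For the last part the inequality of the starting file
`Pool.Agent.W353.TD` (sums of defects and mean values of permutation characters) is applied to the class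
function which is `1` at the generators of the cyclic group and `0` elsewhere.
-/

set_option autoImplicit false

namespace Pool.Agent.Results.MP_223b32_ag.CriticalNumberFields

open NumberField IsDedekindDomain Filter Topology Polynomial
open Pool.Agent.W353.EF (IsEulerSystem LFun)
open Pool.Agent.W353.TD (rank IsPart)

section
variable {K Ω : Type} [Field K] [Field Ω] [Algebra K Ω]

/-- `P F` holds for all sufficiently large finite extensions `F` of `K` inside `M`. -/
def ForLarge (M : IntermediateField K Ω) (P : IntermediateField K Ω → Prop) : Prop :=
  ∃ F₁ : IntermediateField K Ω, F₁ ≤ M ∧ FiniteDimensional K F₁ ∧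
    ∀ F, F₁ ≤ F → F ≤ M → FiniteDimensional K F → P F

/-- The extension `M` of `K` is critical for the property `Q` of the finite extensions of `K`: there
are arbitrarily large finite extensions inside `M` without the property `Q`, and for every larger field
`N` all sufficiently large finite extensions inside `N` have the property `Q`. -/
def Critical (Q : IntermediateField K Ω → Prop) (M : IntermediateField K Ω) : Prop :=
  ¬ ForLarge M Q ∧ ∀ N, M < N → ForLarge N Q

end

section
variable {K : Type} [Field K] {n : ℕ} (X : Set (MvPolynomial (Fin n) (𝓞 K))) (d m N : ℕ)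

/-- `F` is a number field, and the pole of `L(H^{2m}(X_F), s)` at `s = m + 1` has the order `r`:
`ε^r L(m + 1 + ε)` has a finite nonzero limit for `ε → 0+`. -/
def PoleOfOrder (F : IntermediateField K (AlgebraicClosure K)) (r : ℤ) : Prop :=
  ∃ (_ : NumberField F) (B : HeightOneSpectrum (𝓞 F) → ℂ[X]), IsEulerSystem X d (2 * m) N B ∧
    ∃ c : ℂ, c ≠ 0 ∧
      Tendsto (fun ε : ℝ => (ε : ℂ) ^ r * LFun B ((m : ℂ) + 1 + ε)) (𝓝[>] 0) (𝓝 c)

/-- For all `η > 0` the exponent `log |L(m + 1 + ε)| / log(1/ε)` of `L(H^{2m}(X_F), s)` differs from `q`
by at most `δ + η` for all small `ε > 0`. -/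
def ExponentNear (F : IntermediateField K (AlgebraicClosure K)) (q δ : ℝ) : Prop :=
  ∀ (_ : NumberField F) (B : HeightOneSpectrum (𝓞 F) → ℂ[X]), IsEulerSystem X d (2 * m) N B →
    ∀ η : ℝ, 0 < η → ∀ᶠ ε : ℝ in 𝓝[>] 0,
      |Real.log ‖LFun B ((m : ℂ) + 1 + ε)‖ / Real.log (1 / ε) - q| ≤ δ + η

/-- Tate's conjecture over `F`: the order of the pole of `L(H^{2m}(X_F), s)` at `s = m + 1` is the
dimension of the space of the elements of `V` fixed by the absolute Galois group of `F`, which for
`V = A^m(X) ⊗ ℚ` is the rank of `A^m(X_F)`. -/
def TateOver {V : Type} [AddCommGroup V] [Module ℚ V]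
    (ρ : Representation ℚ Gal(AlgebraicClosure K/K) V)
    (F : IntermediateField K (AlgebraicClosure K)) : Prop :=
  PoleOfOrder X d m N F (rank ρ F)

end

section bridge
variable {K : Type} [Field K] {n : ℕ} {X : Set (MvPolynomial (Fin n) (𝓞 K))} {d m N : ℕ}

theorem edge_eq (m : ℕ) (ε : ℝ) : ((2 * m : ℕ) : ℂ) / 2 + 1 + ε = (m : ℂ) + 1 + ε := by
  push_cast
  ring

theorem pole_eq (F : IntermediateField K (AlgebraicClosure K)) (r : ℤ) :
    PoleOfOrder X d m N F r = Pool.Agent.V5helper60.AF.PoleOver X d (2 * m) N F 1 r := by
  unfold PoleOfOrder Pool.Agent.V5helper60.AF.PoleOver Pool.Agent.V5helper60.AF.PoleOrder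
  simp only [edge_eq, pow_one]

theorem near_eq (F : IntermediateField K (AlgebraicClosure K)) (q δ : ℝ) :
    ExponentNear X d m N F q δ = Pool.Agent.V5helper60.AF.NearOrder X d m N F q δ := by
  unfold ExponentNear Pool.Agent.V5helper60.AF.NearOrder Pool.Agent.W353.EF.size
  simp only [edge_eq]

theorem tate_eq {V : Type} [AddCommGroup V] [Module ℚ V]
    (ρ : Representation ℚ Gal(AlgebraicClosure K/K) V) :
    TateOver X d m N ρ = Pool.Agent.V5helper60.AF.RankIsOrder ρ X d (2 * m) N := by
  funext F
  unfold TateOver
  rw [pole_eq]
  rfl

end bridge

/-- **Critical fields for Tate's conjecture.**  Let `X` be a projective variety of dimension `d` over a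
number field `K`, `m ≤ d`, `N` the `2m`-th Betti number, `V` a part of `H^{2m}(X)(m)`, for instance
`V = A^m(X) ⊗ ℚ`, and `s = N - dim V`.  If Tate's conjecture fails over a finite extension `F₀` of `K`,
then there is an automorphism `σ` whose fixed field `M ⊇ F₀` is critical.  For every finite Galois
extension `M'` of `M`, of degree `n`, and all large `F` inside `M` the exponent of the `L`-function over `F`
is the rank up to `s φ(n)/n + o(1)`; and if `s φ(n) < n`, the order of the pole over `F`, if it is defined,
is the rank. -/
theorem result (K : Type) [Field K] [NumberField K] (n d m N : ℕ)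
    (X : Set (MvPolynomial (Fin n) (𝓞 K))) (V : Type) [AddCommGroup V] [Module ℚ V]
    [FiniteDimensional ℚ V] (ρ : Representation ℚ Gal(AlgebraicClosure K/K) V) (hm : m ≤ d)
    (hV : IsPart X d m N ρ) (F₀ : IntermediateField K (AlgebraicClosure K))
    (hF₀ : FiniteDimensional K F₀) (h : ¬ TateOver X d m N ρ F₀) :
    ∃ (σ : Gal(AlgebraicClosure K/K)) (M : IntermediateField K (AlgebraicClosure K)),
      F₀ ≤ M ∧ (∀ x, x ∈ M ↔ σ x = x) ∧ Critical (TateOver X d m N ρ) M ∧
      ∀ (M' : IntermediateField M (AlgebraicClosure K)) [FiniteDimensional M M'] [IsGalois M M'],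
        (ForLarge M fun F => ExponentNear X d m N F (rank ρ F)
          (((N - Module.finrank ℚ V : ℕ) : ℝ) *
            (((Module.finrank M M').totient : ℝ) / (Module.finrank M M' : ℝ)))) ∧
        ((N - Module.finrank ℚ V) * (Module.finrank M M').totient < Module.finrank M M' →
          ForLarge M fun F => ∀ r : ℤ, PoleOfOrder X d m N F r → r = rank ρ F) := by
  rw [tate_eq] at h ⊢
  obtain ⟨M, σ, h1, h2, h3, h4⟩ := Pool.Agent.V5helper60.AF.crit_tate hm hV hF₀ h
  refine ⟨σ, M, h1, h2, h3, fun M' _ _ => ?_⟩
  obtain ⟨h5, h6⟩ := h4 M'
  simp only [near_eq, pole_eq]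
  exact ⟨h5, h6⟩

end Pool.Agent.Results.MP_223b32_ag.CriticalNumberFields
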