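import Mathlib
import Pool.Agent.Q29.EP.Rows
import Pool.Agent.TH170.GS.Rel
import Pool.Agent.TH117.BL.Pole
import Pool.Agent.V5helper98.HC.Defs

/-!
# The analytic Tate conjecture for the constant varieties over finitely generated fields of positive
characteristic that come from abelian varieties with one half of all slope types of every CM field of
degree `2 r ^ k`

Over an algebraic closure of the field with `p` elements each abelian variety is isogenous to the
reduction of an abelian variety of CM type (Honda, Tate). So an abelian variety over the field with
`p ^ a` elements is modelled by `RedAV`: a finite product of CM types `(E i, Φ i)` with Weil numbers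
`π i ∈ E i` that satisfy the formula of Shimura and Taniyama. We fix an isomorphism `ν` of the
algebraic closure of `ℚ_p` with `ℂ`; it defines a `p`-adic valuation of `ℂ`, with the value one at
`p`.

Let `K i` (`i` in a finite set) be CM fields of degree `2 g i` which are pairwise independent: for
`i ≠ k` and all complex embeddings `φ` of `K i` and `ψ` of `K k` some automorphism of `ℂ` is the
identity on `φ (K i)` and the complex conjugation on `ψ (K k)` (this is no condition if there is
only one field). Let `M i` be a function with integral values on the complex embeddings of `K i`,
invariant under complex conjugation (the weights). A CM type `Φ i` of `K i` (a choice of one element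
out of each complex conjugate pair of embeddings), `M i` and a real number `κ ≠ 0` prescribe the
slopes `(a + κ M) / 2` (at the embeddings in `Φ i`) and `(a - κ M) / 2` (outside of `Φ i`) of a Weil
number for `p ^ a` in `K i`. If `p` splits completely in `K i` then, by Honda and Tate, all rational
slopes between `0` and `a` that are symmetric in this way occur for abelian varieties over finite
fields. The case `M = 1`, `κ = a` is the ordinary case.

Let `𝒞` (`OfTypes`) be the class of the abelian varieties `Y` each of whose factors is supersingular or
has a Frobenius endomorphism some power of which is, for some `i`, a Weil number in `K i` with the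
slopes prescribed by `Φ i`, `M i` and some real number `κ i ≠ 0` (which depends only on `Y` and `i`).
So `Y` is, over an algebraic closure, isogenous to a product of powers of one abelian variety for each
`i`, with the given slopes, and of a supersingular one.

**The property of the slope types** (`Q`, `Holds`). Let `k` be **any finitely generated field of
characteristic `p`**, of transcendence degree `D ≥ 0`, with the field of constants `𝔽` with `q = p ^ n`
elements, and let `U` be a regular irreducible scheme of finite type with the function field `k`: this
is a geometrically irreducible variety of dimension `D = dim_a (k)` over `𝔽` (a point if `k` is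
finite). Let `P` be the set of its closed points and `deg` the degree over `𝔽` (`IsBase`: the estimate
of Lang and Weil). Let `X₀` be a smooth projective variety of dimension `d` over `𝔽` and
`X = X₀ ⊗ k` the constant variety over `k`. Let `V = H^{2 j}(X)(j)` and `V' = H^{2 (d - j)}(X)(d - j)`
with the coefficients `ℚ_ℓ` (`ℓ ≠ p`) extended to `ℂ`, with the Frobenius endomorphisms `Fr` and `Fr'`
and the duality pairing. A Frobenius element at the closed point `v` of `U` acts as `Fr ^ deg v`, so
that the `L`-function of `H^{2 j}(X)` at `s + j` is the product of the Euler factors
`det (1 - q ^ (- s deg v) Fr ^ deg v)⁻¹` (`IsEulerProduct`). Let `A ⊆ V` and `A' ⊆ V'` be the rational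
vector spaces of the classes of algebraic cycles on `X` over `k` (`IsCyclePair`: these classes are
invariant and their intersection numbers are rational).

Suppose that `V` and `V'` come from members of `𝒞`: that they are sums of the images of finitely many
homomorphisms `Γ : H^{2 m}(Y, m) → V` given by algebraic correspondences between `X₀` and members `Y` of
`𝒞` (`TPiece`). For instance `X₀` is a member of `𝒞`, a product of curves whose Jacobian varieties are
in `𝒞`, or any variety dominated by such a variety. Then

* the dimension over `ℚ` of the space `A` is equal to the dimension of the space of the invariants;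
* the Euler product converges for `Re s > D` to a function `L` such that `(s - D) ^ ρ L(s)` has a
  finite limit different from zero for `s → D`, `s > D`, where `ρ = dim_ℚ A`.

So **the order of the pole of the `L`-function of `H^{2 j}(X)` at `j + dim_a (k)` is the rank of the
group of the classes of algebraic cycles of codimension `j`** on `X`, for all `j`.

**The theorem.** Let `E` be **any CM field of degree `2 g = 2 r ^ k`**, `r` a prime number, of
degree at least `16` if `r = 2`. Nothing is assumed about the Galois group of the normal closure of
`E`, and nothing about the subfields of `E`.

* (`HalfOfAll`) For all weights `M` (odd if `r = 2`; if `r` is odd then `r` may divide some, but not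
  all of them) the property `Q` is true for **at least one half of all `2 ^ g` types** of `E`.
* (`MostWithWeightsOne`) For the weights `M = 1` (for instance in the ordinary case) it is true for
  at least `(1 - 1 / r) 2 ^ g` of the types.
* (`OneOfTwo`) There is a set `B` of embeddings of `E`, stable under complex conjugation, such that
  for **every** type `Φ` it is true for `Φ` or for the symmetric difference of `Φ` and `B`.
* (`SixteenPercent`) There is a number `g₀` such that for every CM field that is **abelian over
  `ℚ`**, of any degree `2 g ≥ 2 g₀`, and all odd weights it is true for at least 16 percent of all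
  `2 ^ g` types; again nothing is assumed on the subfields.

All this is proved for finitely many pairwise independent fields `K i`; the proportions are then
multiplied.

**What is new.** The starting results of this folder over finite fields treat abelian varieties of
dimension at most five and products of abelian varieties of dimension at most three. That the analytic
conjecture for constant varieties follows if the relations between the Frobenius eigenvalues are
elementary is a theorem of the starting files (`Pool.Agent.TH117.BL`, `ConstantPoles` in
MP_af4e75_ag); that these relations are elementary for the types without relations is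
`Pool.Agent.TH170.GS`, and the number of the types without relations is determined in
`Pool.Agent.Q29.DP` and `Pool.Agent.Q29.EP` (applied there to the conjecture of Parshin only). New is
the combination: the analytic conjecture in **all dimensions `r ^ k`**, for at least one half of all
slope types of every CM field of this degree.

**The proof.** If there are relations between the Frobenius eigenvalues of a member of `𝒞` that are
not generated by those of the complex conjugate pairs, then for one of the types
`∑ n φ * e (σ φ) = 0` for all automorphisms `σ` of `ℂ`, where `e = ± M` are the signed weights and
`n ≠ 0` is an integral function with `n (conj φ) = - n φ`. Let `P` be a Sylow `r`-subgroup of the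
Galois group of the normal closure and `R` the lattice of the relations for all `σ` in `P`. If `R ≠ 0`
then it contains an element `n`, not in `r R`, which is fixed modulo `r R` by `P`. If `r` is odd then
`P` has two orbits on the set of the embeddings, and `n` is constant modulo `r` on an orbit `O`; so
the sum of `e` over `O` is divisible by `r`, and it is not after a change of the type at one place.
For `r = 2` see `HalfOfAllTimes` in MP_de59b4_ag. If there are no such relations then all Tate classes
on the members of `𝒞` are combinations of products of Tate classes of degree two.
-/

set_option autoImplicit false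

namespace Pool.Agent.Results.MP_223b32_ag.HalfOfAllTypes

open NumberField Module Filter Topology Pool.Agent.H204R3.CM Pool.Agent.H977R3.CM
  Pool.Agent.TH170 Pool.Agent.TH117.BL Pool.Agent.Q29.EP Pool.Agent.V5helper98.HC

open Pool.Agent.Q29.DP (notMem_degTypes_of_noRelations)

/-- The analytic Tate conjecture for the slope types `Φ`. The cohomology groups `V` and `V'` of
complementary degrees of a smooth projective variety `X₀` over the field with `q = p ^ n` elements come
from abelian varieties with the slope types `Φ`, `A` is the rational space of the classes of cycles
in `V`; the base is a variety of dimension `D` over this field with the set `P` of closed points. Then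
the dimension of `A` is the dimension of the invariants, and the Euler product over `P` has a pole of
order `dim A` at `D`. -/
def Holds {p : ℕ} [Fact p.Prime] (ν : PadicAlgCl p ≃+* ℂ) {I : Type} (K : I → Type)
    [∀ i, Field (K i)] (M : ∀ i, (K i →+* ℂ) → ℤ) (Φ : ∀ i, Set (K i →+* ℂ)) : Prop :=
  ∀ (n : ℕ), 0 < n → ∀ (V V' : Type) [AddCommGroup V] [Module ℂ V] [AddCommGroup V'] [Module ℂ V']
    [Module ℚ V] [Module ℚ V'] (Fr : V →ₗ[ℂ] V) (Fr' : V' →ₗ[ℂ] V') (B : V →ₗ[ℂ] V' →ₗ[ℂ] ℂ)
    (A : Submodule ℚ V) (A' : Submodule ℚ V'), IsCyclePair Fr Fr' B A A' →
    ∀ (ι ι' : Type) [Finite ι] [Finite ι']
    (S : ι → TPiece ν K M Φ n Fr (Submodule.span ℂ (A : Set V))),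
    ⨆ i, LinearMap.range (S i).Γ = ⊤ →
    ∀ (S' : ι' → TPiece ν K M Φ n Fr' (Submodule.span ℂ (A' : Set V'))),
    ⨆ i, LinearMap.range (S' i).Γ = ⊤ → ∀ (P : Type) (deg : P → ℕ) (D : ℕ),
    IsBase (p ^ n) D deg →
      finrank ℚ A = finrank ℂ (LinearMap.eqLocus Fr LinearMap.id) ∧
      ∃ L : ℂ → ℂ, IsEulerProduct (p ^ n) D deg Fr L ∧ ∃ c : ℂ, c ≠ 0 ∧
        Tendsto (fun s : ℝ => ((s : ℂ) - D) ^ finrank ℚ A * L s) (𝓝[>] (D : ℝ)) (𝓝 c)

/-- The property of the slope types `Φ i` with the weights `M i`. -/
def Q : TypeProperty := fun _ _ ν _ _ K _ _ _ M Φ => Holds ν K M Φ

theorem without_relations : WithoutRelations Q := by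
  intro p _ ν I _ K _ _ _ M Φ hind hMc hΦ hno n hn V V' _ _ _ _ _ _ Fr Fr' B A A' H ι ι' _ _ S hS
    S' hS' P deg D hP
  have hrel : ∀ Y : Pool.Agent.W495.TA.RedAV p ν, GS.OfTypes K M Φ Y → HasElementaryRelations Y :=
    fun Y hY => GS.elementary_of_types hind hMc hΦ
      (fun i => notMem_degTypes_of_noRelations (hno i)) hY
  have hpow : ∀ Y : Pool.Agent.W495.TA.RedAV p ν, IsPowersTimesSupersingular Y Y :=
    fun Y k => Or.inr ⟨k, RingHom.id _, 1, 1, one_pos, one_pos, rfl, rfl⟩
  exact constTate p ν n hn Fr Fr' B A A' H
    (fun i => ⟨(S i).Y, hrel _ (S i).types, (S i).Y, hpow _, (S i).s, (S i).pos, (S i).degree,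
      (S i).m, (S i).Γ, (S i).equivariant, (S i).algebraic⟩) hS
    (fun i => ⟨(S' i).Y, hrel _ (S' i).types, (S' i).Y, hpow _, (S' i).s, (S' i).pos,
      (S' i).degree, (S' i).m, (S' i).Γ, (S' i).equivariant, (S' i).algebraic⟩) hS' deg D hP

/-- **The analytic Tate conjecture for the constant varieties that come from abelian varieties with
one half of all slope types of every CM field of degree `2 r ^ k`.** -/
theorem result : HalfOfAll Q ∧ MostWithWeightsOne Q ∧ OneOfTwo Q ∧ SixteenPercent Q :=
  ⟨halfOfAll without_relations, mostWithWeightsOne without_relations,
    oneOfTwo without_relations, sixteenPercent without_relations⟩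

end Pool.Agent.Results.MP_223b32_ag.HalfOfAllTypes
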