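import Pool.Agent.V5helper90.TB.Pole

/-!
# The analytic Tate conjecture over finite fields for abelian varieties in independent blocks

Over an algebraic closure of the field with `p` elements each abelian variety is isogenous to the
reduction of an abelian variety of CM type (Honda, Tate). So an abelian variety over the field with
`p ^ a` elements is modelled by a finite product `X` of CM types `(E i, Φ i)` with Weil numbers
`π i ∈ E i` that satisfy the formula of Shimura and Taniyama (`RedAV`); its rational Tate module, with
complex coefficients, is `ℂ ⊗ H_1(X, ℚ)`, on which the Frobenius endomorphism acts by `π`.

We consider (`IsCovered`) the following abelian varieties `Y` over finite fields.

* All abelian varieties of dimension at most five.
* All `Y` that are, over an algebraic closure, isogenous to a product of a supersingular abelian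
  variety and of powers of the factors of an abelian variety `Z` in **independent blocks**
  (`InBlocks`), with any Newton polygons: the factors of `Z` are divided into blocks, factors in
  different blocks are independent, and each block is either
  * small (`IsSmallBlock`): any number of factors of dimension at most three such that two different
    factors of dimension three whose CM fields have the same Galois closure have Galois CM fields (so
    **any number of elliptic curves and abelian surfaces** is allowed); or factors whose dimensions
    have a sum of at most five, but not an elliptic curve and a factor of dimension four; or
  * one factor such that some power of its Frobenius endomorphism lies in a CM field with an
    **irreducible odd part**; or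
  * a set of factors all relations of whose Frobenius eigenvalues are generated by relations between at
    most two eigenvalues (`HasPairRelations`), for example one factor of maximal angle rank.

The odd part of a CM field `K` is the space of the rational functions on the set of the complex
embeddings of `K` which change their sign under complex conjugation, with the operation of the
automorphisms of `ℂ`. It is irreducible if the degree of `K` is `2 g` with an odd prime number `g` and
`K` contains no imaginary quadratic field (`HasIrreducibleOddPart`; proved here), and also for instance
if the Galois group is as large as possible. Two factors are independent (`Independent`) if one of
them is supersingular, or if powers of their Frobenius endomorphisms lie in CM fields `K`, `K'` such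
that

* every pair of complex embeddings `φ` of `K` and `ψ` of `K'` is flipped: some automorphism of `ℂ` is the
  identity on `φ (K)` and the complex conjugation on `ψ (K')`; or
* the odd part of `K` is irreducible and **the degree of `K'` is smaller than the degree of `K`, or the
  Galois closure of `K'` does not contain that of `K`** (or the same with `K` and `K'` exchanged). In this
  case no relation between the two fields has to be excluded.

For example `Z` may be a product of any elliptic curves and abelian surfaces and of simple abelian
varieties of odd prime dimensions `≥ 5` whose CM fields (of degree twice the dimension) contain no
imaginary quadratic fields and, if they have the same degree, have different Galois closures.

Let `C r` be rational vector spaces of cohomology classes of degree `2 r` on `Y` with the following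
properties of the spaces of classes of algebraic cycles of codimension `r` over the extension `k` of
degree `s` of the ground field (`IsCycleSystem`): they consist of Tate classes, intersection numbers
are rational, and the Tate classes in the system `AlgS` are combinations of elements of `C r` with
coefficients in `ℂ`. Here `AlgS` is the smallest system of cohomology classes of abelian varieties
over finite fields that contains the Tate classes of degree two, the reductions of the Weil classes of
imaginary quadratic fields on abelian fourfolds and sixfolds of CM type and of split Weil type, and the
reductions of the Hodge classes of degree four on products of elliptic curves and abelian surfaces of
CM type, and that is stable under linear combinations, cup products, pull-backs along homomorphisms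
and push-forwards along projections; these classes are algebraic by theorems of Tate, Markman, and
Ramón Marí.

Then numerically trivial classes in `C r` are zero, and the function
`L(z) = det (1 - Frob Q ^ (-z) | H^{2r}) ^ (-1)`, `Q` the number of elements of `k`, has at `z = r` a
pole of order `dim (C r)`. This is the assertion of the analytic Tate conjecture for `Y` over the
finite field `k` (whose arithmetic dimension is zero), in all degrees `r`, together with the
agreement of numerical and homological equivalence.

What is new over the starting files (`AbelianDimensionFive`, `NonOrdinaryThreefolds`,
`SimpleUpToDimensionFive` for this problem, `SurfacesAndDimensionFive` for MP_ee618e) are the
independent blocks: a relation between Frobenius eigenvalues can be divided into relations between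
the eigenvalues of the blocks, since the functions on the Galois group given by the slopes of weights in
different blocks are orthogonal if the embeddings are flipped; an irreducible odd part makes all pairs
flipped if the other field has smaller degree or a Galois closure which does not contain it (a kernel
that is not flipped would be an injective equivariant map of the odd parts); and the irreducibility for
odd prime `g` by means of an element of order `g` of the Galois group and the irreducibility of the
cyclotomic polynomial.
-/

namespace Pool.Agent.Results.MP_223b32_ag.IndependentBlocks

open Pool.Agent.W495.TA Pool.Agent.W547.DR Pool.Agent.V5helper90.TB.Pole

/-- `Y` has dimension at most five or is a product of a supersingular abelian variety and of powers of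
the factors of an abelian variety in independent blocks (`IsCovered`). There are systems of rational
subspaces with the properties of the spaces of classes of algebraic cycles over the extension of
degree `s`; and for all such systems `C` and all `r`, numerically trivial classes in `C r` are zero,
and the L-function of the cohomology of degree `2 r` over this extension has at `r` a pole of order
`dim (C r)`. -/
theorem result (p : ℕ) [Fact p.Prime] (ν : PadicAlgCl p ≃+* ℂ) (Y : RedAV p ν)
    (hY : IsCovered Y) (s : ℕ) (hs : 0 < s) :
    (∃ C : Sys ℂ Y, IsCycleSystem s C) ∧
      ∀ C : Sys ℂ Y, IsCycleSystem s C → ∀ r : ℕ, AnalyticFormula s C r :=
  analytic_covered hY s hs

end Pool.Agent.Results.MP_223b32_ag.IndependentBlocks
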