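import Pool.Agent.V5helper57.Tat.Fin

/-!
# The order of the pole of `L(H^k(V × C_1^{e_1} × ... × C_n^{e_n}), s)` on average over the curves `C_i`, up to `H ^ (1 / 7)`

Let `K` be a number field, `V` any smooth projective variety over `K`, fixed, and `Z = C_1^{e_1} × ... × C_n^{e_n}` the product of powers
of hyperelliptic curves `C_i : y² = f_i(x)` of the genera `g_i`, where the `f_i` are monic polynomials of degree `2 g_i + 1` with random
coefficients in the ring of integers: their coordinates for an integral basis are integers of absolute value at most `H`.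

The conjectures of Tate on algebraic cycles and on poles, together with the formula of Künneth and the first main theorem on the
invariants of symplectic groups, predict for a generic `Z` that
`L(H^k(V × Z), s) = ∏_j L(H^{k - 2 j}(V), s - j) ^ {ρ_j(Z)} · R(s)`, where `ρ_j(Z)` is the rank of the group of the classes of algebraic
cycles of codimension `j` on the generic `Z` (they are generated by products of divisors; `ρ_0 = 1`, `ρ_1 = ∑ e_i (e_i + 1) / 2`), and
where `R(s)` is holomorphic and without zeros for `Re s > (k + 1) / 2`. So the order of the pole at `s = k / 2 + 1` should be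
`∑_j ρ_j(Z) r_j`, where `r_j` is the order for `H^{k - 2 j}(V)`. The Euler products converge absolutely only for `Re s > k / 2 + 1`.

We prove that this is true for almost all `Z` as far as it can be seen from the primes of norm `y ≤ H ^ (1 / 7)`, in all degrees `k` with
`min (e_i, k) ≤ 2 g_i + 1` (so for `k = 2` and all exponents and genera `g_i ≥ 1`, and for all `k` if `e_i ≤ 2 g_i + 1`): for every
`σ > (k + 1) / 2`, `R` and `ε > 0` there is a `y₀` such that for all but a proportion `ε` of the `Z` of height `H` the Euler products of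
`L(H^k(V × Z), s) / ∏_j L(H^{k - 2 j}(V), s - j) ^ {ρ_j(Z)}` over the primes of norm at most `y` agree up to the relative error `ε` for all
`y₀ ≤ y ≤ H ^ (1 / 7)`, uniformly for `Re s ≥ σ`, `|s| ≤ R`; in particular at the point `s = k / 2 + 1`.

If `V` is a point, the assertion is that the order of the pole of `L(H^{2 j}(Z), s)` at `j + 1` that can be seen is `ρ_j(Z)`:
`L(H^{2 j}(Z), s) ζ_K(s - j) ^ {-ρ_j(Z)}` behaves like a function that is holomorphic and without zeros for `Re s > j + 1 / 2`.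

The traces of the Frobenius on the cohomology of `Z` are given by the numbers of points on the curves. The variety `V` enters only by
the eigenvalues of the Frobenius automorphisms on its cohomology, and the theorem is proved for arbitrary systems of eigenvalues with
the bounds of Deligne (`IsSystem`).

Weil's bound for the character sums is from the starting files (`H341R2`, `N647`), as are the moment estimates on boxes (`X280`).
-/

set_option autoImplicit false

namespace Pool.Agent.Results.MP_223b32_ag.RandomProducts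

open NumberField IsDedekindDomain Polynomial

/-- The monic polynomial `X ^ d + ∑ t_j X ^ j`. -/
noncomputable def monic {R : Type} [CommRing R] {d : ℕ} (t : Fin d → R) : R[X] := X ^ d + ∑ j, C (t j) * X ^ (j : ℕ)

section

variable (k : Type) [Field k]

/-- The number of the affine points of `y² = f(x)` over the extension of degree `m` of the finite field `k`. -/
noncomputable def points (f : k[X]) (m : ℕ) : ℕ :=
  Nat.card {P : AlgebraicClosure k × AlgebraicClosure k //
    P.1 ^ Nat.card k ^ m = P.1 ∧ P.2 ^ Nat.card k ^ m = P.2 ∧ P.2 ^ 2 = aeval P.1 f}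

/-- The trace `q ^ m + 1 - #C(k_m)` of the `m`-th power of the Frobenius on `H¹(C)`; the curve has one point at infinity. -/
noncomputable def trace (f : k[X]) (m : ℕ) : ℝ := (Nat.card k : ℝ) ^ m + 1 - (points k f m + 1)

/-- The polynomial `∏ (1 + a_i X + q^m X²) ^ e_i`; by the formula of Künneth its coefficient of degree `l` is the trace of the `m`-th
power of the Frobenius on `H^l(Z)`, `Z` the product of the curves `y² = f_i(x)` with the multiplicities `e_i`. -/
noncomputable def traces {n : ℕ} (f : Fin n → k[X]) (e : Fin n → ℕ) (m : ℕ) : ℝ[X] :=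
  ∏ i, (1 + C (trace k (f i) m) * X + C ((Nat.card k : ℝ) ^ m) * X ^ 2) ^ e i

end

/-- The moments of the standard normal distribution: `(h - 1)!!` for even `h`, and `0` for odd `h`. -/
def moment (h : ℕ) : ℕ := if Even h then Nat.doubleFactorial (h - 1) else 0

/-- The rank `ρ_j(Z)` for generic `Z = C_1^{e_1} × ... × C_n^{e_n}`: the coefficient of degree `2 j` of the product of the polynomials
`∑_h binom(e_i, h) moment(h) X^h (1 + X²)^{e_i - h}` (the mean value of `(1 + x X + X²)^{e_i}` for a normal distribution of `x`). -/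
noncomputable def rank {n : ℕ} (e : Fin n → ℕ) (j : ℕ) : ℕ :=
  (∏ i, ∑ h ∈ Finset.range (e i + 1), C ((e i).choose h * moment h) * X ^ h * (1 + X ^ 2) ^ (e i - h) : ℕ[X]).coeff (2 * j)

section

variable {K : Type} [Field K] [NumberField K]

/-- The polynomial `f` modulo the prime `v`. -/
noncomputable def reduction (f : (𝓞 K)[X]) (v : HeightOneSpectrum (𝓞 K)) : v.asIdeal.ResidueField[X] :=
  f.map (algebraMap (𝓞 K) v.asIdeal.ResidueField)

/-- `v` does not divide `2`, and the polynomials are squarefree modulo `v`: the curves have good reduction at `v`. -/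
def Good {n : ℕ} (f : Fin n → (𝓞 K)[X]) (v : HeightOneSpectrum (𝓞 K)) : Prop :=
  (2 : 𝓞 K) ∉ v.asIdeal ∧ ∀ i, Squarefree (reduction (f i) v)

/-- `β v i` is, for all primes `v` and all `i`, a multiset of complex numbers of absolute value at most `N(v) ^ (i / 2)`, and the number
of its elements is bounded. If `V` is a smooth projective variety, the eigenvalues of the geometric Frobenius on `H^i(V)` have this
property (take the empty multiset at the primes of bad reduction). -/
def IsSystem (β : HeightOneSpectrum (𝓞 K) → ℕ → Multiset ℂ) : Prop :=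
  ∃ B : ℕ, ∀ v i, (β v i).card ≤ B ∧ ∀ z ∈ β v i, ‖z‖ ≤ (Ideal.absNorm v.asIdeal : ℝ) ^ ((i : ℝ) / 2)

/-- The Euler product of `L(H^i(V), s)` over the primes of norm at most `y`. -/
noncomputable def productV (β : HeightOneSpectrum (𝓞 K) → ℕ → Multiset ℂ) (i : ℕ) (y : ℝ) (s : ℂ) : ℂ :=
  ∏ᶠ v ∈ {v : HeightOneSpectrum (𝓞 K) | (Ideal.absNorm v.asIdeal : ℝ) ≤ y},
    ((β v i).map fun z => (1 - z * (Ideal.absNorm v.asIdeal : ℂ) ^ (-s))⁻¹).prod

/-- The trace of the `m`-th power of the Frobenius on `H^k(V × Z)`, `Z` the product of the curves `y² = f_i(x)` with the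
multiplicities `e_i`. -/
noncomputable def traceVZ (β : HeightOneSpectrum (𝓞 K) → ℕ → Multiset ℂ) {n : ℕ} (e : Fin n → ℕ) (k : ℕ) (f : Fin n → (𝓞 K)[X])
    (v : HeightOneSpectrum (𝓞 K)) (m : ℕ) : ℂ :=
  ∑ l ∈ Finset.range (k + 1), ((β v (k - l)).map fun z => z ^ m).sum *
    ((traces v.asIdeal.ResidueField (fun i => reduction (f i) v) e m).coeff l : ℂ)

/-- The Euler product of `L(H^k(V × Z), s)` over the good primes of norm at most `y`; the Euler factor is
`exp (∑_{m ≥ 1} t_m N(v) ^ (-m s) / m)` for the traces `t_m`. -/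
noncomputable def productVZ (β : HeightOneSpectrum (𝓞 K) → ℕ → Multiset ℂ) {n : ℕ} (e : Fin n → ℕ) (k : ℕ) (f : Fin n → (𝓞 K)[X])
    (y : ℝ) (s : ℂ) : ℂ :=
  ∏ᶠ v ∈ {v : HeightOneSpectrum (𝓞 K) | Good f v ∧ (Ideal.absNorm v.asIdeal : ℝ) ≤ y},
    Complex.exp (∑' m : ℕ, traceVZ β e k f v (m + 1) * (Ideal.absNorm v.asIdeal : ℂ) ^ (-((m + 1 : ℕ) : ℂ) * s) / ((m + 1 : ℕ) : ℂ))

/-- The Euler product of `L(H^k(V × Z), s) / ∏_j L(H^{k - 2 j}(V), s - j) ^ ρ_j(Z)` over the primes of norm at most `y`. -/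
noncomputable def quotient (β : HeightOneSpectrum (𝓞 K) → ℕ → Multiset ℂ) {n : ℕ} (e : Fin n → ℕ) (k : ℕ) (f : Fin n → (𝓞 K)[X])
    (y : ℝ) (s : ℂ) : ℂ :=
  productVZ β e k f y s / ∏ j ∈ Finset.range (k / 2 + 1), productV β (k - 2 * j) y (s - j) ^ rank e j

/-- For `Re s ≥ σ`, `|s| ≤ R` the Euler products of the quotient over the primes of norm at most `y`, for all `y` with `y₀ ≤ y` and
`y ^ 7 ≤ H`, agree up to the relative error `ε`. -/
def Stable (β : HeightOneSpectrum (𝓞 K) → ℕ → Multiset ℂ) {n : ℕ} (e : Fin n → ℕ) (k : ℕ) (σ R ε y₀ H : ℝ)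
    (f : Fin n → (𝓞 K)[X]) : Prop :=
  ∀ s : ℂ, σ ≤ s.re → ‖s‖ ≤ R → ∀ y' y : ℝ, y₀ ≤ y' → y' ≤ y → y ^ 7 ≤ H →
    ‖quotient β e k f y s - quotient β e k f y' s‖ ≤ ε * ‖quotient β e k f y' s‖

/-- The polynomials with the coefficients `∑_l c_{(i, j), l} w_l`, `j < 2 g_i + 1`. -/
noncomputable def curves {n d : ℕ} {g : Fin n → ℕ} (w : Fin d → 𝓞 K) (c : (Σ i : Fin n, Fin (2 * g i + 1)) × Fin d → ℤ) (i : Fin n) :
    (𝓞 K)[X] :=
  monic fun j : Fin (2 * g i + 1) => ∑ l, (c (⟨i, j⟩, l) : 𝓞 K) * w l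

end

open Classical in
/-- The proportion of the set `S` among the families `c` of integers with `|c_i| ≤ H`. -/
noncomputable def proportion {ι : Type} [Fintype ι] [DecidableEq ι] (H : ℕ) (S : Set (ι → ℤ)) : ℝ :=
  (((Fintype.piFinset fun _ : ι => Finset.Icc (-(H : ℤ)) H).filter (· ∈ S)).card : ℝ) / (2 * H + 1 : ℝ) ^ Fintype.card ι

open Pool.Agent.V5helper57.Tat
open Pool.Agent.V5helper57.Zet (Wd mem_Wd two_le_norm prod_fin prod_split prop_le)

section
variable {K : Type} [Field K] [NumberField K]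

/-- The quotient as a product over the primes of norm at most `y`. -/
theorem quotient_eq {β : HeightOneSpectrum (𝓞 K) → ℕ → Multiset ℂ} {B : ℝ} (hP : Pure β B) {n : ℕ} {g e : Fin n → ℕ} {k : ℕ}
    (t : Fin (dm g) → 𝓞 K) {σ : ℝ} (hσ : ((k : ℝ) + 1) / 2 < σ) {s : ℂ} (hs : σ ≤ s.re) {y : ℝ} (hy : 0 ≤ y) :
    quotient β e k (crvs t) y s = ∏ v ∈ Wd K 0 ⌊y⌋₊, rf β e k (crvs t) s v := by
  classical
  obtain ⟨σ', hσ'⟩ : ∃ σ' : ℝ, σ' = σ - ((k : ℝ) - 1) / 2 := ⟨_, rfl⟩
  have hσ1 : 1 < σ' := by rw [hσ']; linarith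
  have hs2 : σ' + ((k : ℝ) - 1) / 2 ≤ s.re := by rw [hσ']; linarith
  have hmem : ∀ v : HeightOneSpectrum (𝓞 K), v ∈ Wd K 0 ⌊y⌋₊ ↔ (Ideal.absNorm v.asIdeal : ℝ) ≤ y := by
    intro v
    rw [mem_Wd, Nat.le_floor_iff hy]
    have := two_le_norm v
    exact ⟨fun h => h.2, fun h => ⟨by omega, h⟩⟩
  have h1 : productVZ β e k (crvs t) y s = ∏ v ∈ Wd K 0 ⌊y⌋₊,
      (if Gd (crvs t) v then eul (TT β e k (crvs t) v) (Ideal.absNorm v.asIdeal) s else 1) := by
    rw [← Finset.prod_filter]
    unfold productVZ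
    have e1 : {v : HeightOneSpectrum (𝓞 K) | Good (crvs t) v ∧ (Ideal.absNorm v.asIdeal : ℝ) ≤ y} =
        ↑((Wd K 0 ⌊y⌋₊).filter (fun v => Gd (crvs t) v)) := by
      ext v
      rw [Finset.mem_coe, Finset.mem_filter, hmem, Set.mem_ofPred_eq]
      exact and_comm
    rw [e1, finprod_mem_coe_finset]
    refine Finset.prod_congr rfl fun v _ => ?_
    unfold eul
    congr 1
    refine tsum_congr fun m => ?_
    congr 2
    unfold traceVZ TT psm
    refine Finset.sum_congr rfl fun l _ => ?_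
    congr 3
    unfold traces PP trace tr points Pool.Agent.V5helper57.Hyp.affN
    refine Finset.prod_congr rfl fun i _ => ?_
    congr 3
    rw [add_sub_add_right_eq_sub]
    rfl
  have h2 : ∀ j ∈ Finset.range (k / 2 + 1), productV β (k - 2 * j) y (s - j) ^ rank e j = ∏ v ∈ Wd K 0 ⌊y⌋₊,
      eul (fun m => (rk e j : ℂ) * (psm (β v (k - 2 * j)) m * (Ideal.absNorm v.asIdeal : ℂ) ^ (j * m))) (Ideal.absNorm v.asIdeal) s := by
    intro j hj
    have hj' : 2 * j ≤ k := by have := Finset.mem_range.1 hj; omega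
    unfold productV
    rw [prod_fin _ hy, ← Finset.prod_pow]
    refine Finset.prod_congr rfl fun v _ => ?_
    have hrk : rank e j = rk e j := rfl
    have hj2 : σ' + (((k - 2 * j : ℕ) : ℝ) - 1) / 2 ≤ (s - j : ℂ).re := by
      rw [Complex.sub_re, Complex.natCast_re]
      push_cast [Nat.cast_sub hj']
      linarith
    rw [hrk, ← eul_psm (two_le_norm v) (fun z hz => hP.norm v _ z hz) hσ1 hj2, eul_pow]
    have hN : ((Ideal.absNorm v.asIdeal : ℕ) : ℂ) ≠ 0 := by
      have := two_le_norm v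
      exact_mod_cast (by omega : Ideal.absNorm v.asIdeal ≠ 0)
    unfold eul
    congr 1
    refine tsum_congr fun m => ?_
    have e2 : ((Ideal.absNorm v.asIdeal : ℕ) : ℂ) ^ (-((m + 1 : ℕ) : ℂ) * (s - j)) =
        (Ideal.absNorm v.asIdeal : ℂ) ^ (j * (m + 1)) * ((Ideal.absNorm v.asIdeal : ℕ) : ℂ) ^ (-((m + 1 : ℕ) : ℂ) * s) := by
      rw [← Complex.cpow_natCast, ← Complex.cpow_add _ _ hN]
      congr 1
      push_cast
      ring
    rw [e2]
    ring
  have h3 : ∀ v ∈ Wd K 0 ⌊y⌋₊, eul (TC β e k v) (Ideal.absNorm v.asIdeal) s = ∏ j ∈ Finset.range (k / 2 + 1),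
      eul (fun m => (rk e j : ℂ) * (psm (β v (k - 2 * j)) m * (Ideal.absNorm v.asIdeal : ℂ) ^ (j * m))) (Ideal.absNorm v.asIdeal) s := by
    intro v _
    obtain ⟨B1, hB1⟩ : ∃ B1 : ℝ, B1 = B := ⟨_, rfl⟩
    have hB0 : 0 ≤ B := hP.Bn v
    have key : ∀ S : Finset ℕ, (∀ j ∈ S, 2 * j ≤ k) →
        (∏ j ∈ S, eul (fun m => (rk e j : ℂ) * (psm (β v (k - 2 * j)) m * (Ideal.absNorm v.asIdeal : ℂ) ^ (j * m))) (Ideal.absNorm v.asIdeal) s =
          eul (fun m => ∑ j ∈ S, (rk e j : ℂ) * (psm (β v (k - 2 * j)) m * (Ideal.absNorm v.asIdeal : ℂ) ^ (j * m))) (Ideal.absNorm v.asIdeal) s) ∧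
        tb k (Ideal.absNorm v.asIdeal) (∑ j ∈ S, (rk e j : ℝ) * B)
          (fun m => ∑ j ∈ S, (rk e j : ℂ) * (psm (β v (k - 2 * j)) m * (Ideal.absNorm v.asIdeal : ℂ) ^ (j * m))) := by
      intro S
      induction S using Finset.induction_on with
      | empty =>
        intro _
        simp only [Finset.prod_empty, Finset.sum_empty]
        refine ⟨(eul_zero _ _).symm, fun m _ => ?_⟩
        rw [norm_zero, zero_mul]
      | insert a S ha ih =>
        intro hS
        obtain ⟨i1, i2⟩ := ih fun j hj => hS j (Finset.mem_insert_of_mem hj)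
        have i3 := (hP.tb_one (k := k) (hS a (Finset.mem_insert_self a S)) v).nsmul (rk e a)
        have i4 : 0 ≤ ∑ j ∈ S, (rk e j : ℝ) * B := Finset.sum_nonneg fun _ _ => by positivity
        constructor
        · rw [Finset.prod_insert ha, i1, eul_mul (two_le_norm v) (by positivity) i4 i3 i2 hσ1 hs2]
          congr 1
          funext m
          rw [Finset.sum_insert ha]
        · have i5 := i3.add i2
          rw [Finset.sum_insert ha]
          intro m hm
          beta_reduce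
          rw [Finset.sum_insert ha]
          exact i5 m hm
    have h4 := (key (Finset.range (k / 2 + 1)) fun j hj => by have := Finset.mem_range.1 hj; omega).1
    rw [h4]
    rfl
  unfold quotient
  rw [h1, Finset.prod_congr rfl h2, Finset.prod_comm, ← Finset.prod_congr rfl h3, ← Finset.prod_div_distrib]
  refine Finset.prod_congr rfl fun v _ => ?_
  unfold rf
  rw [div_eq_mul_inv]

end

/-- **The Euler products of `L(H^k(V × Z), s) / ∏_j L(H^{k - 2 j}(V), s - j) ^ ρ_j(Z)` for the products `Z` of powers of random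
hyperelliptic curves are stable for `Re s ≥ σ > (k + 1) / 2`.** The first two assertions are `ρ_0(Z) = 1` and
`ρ_1(Z) = ∑ binom(e_i + 1, 2)`. -/
theorem result (K : Type) [Field K] [NumberField K] {n : ℕ} (g e : Fin n → ℕ) :
    rank e 0 = 1 ∧ rank e 1 = ∑ i, (e i + 1).choose 2 ∧
    ∀ k : ℕ, (∀ i, min (e i) k ≤ 2 * g i + 1) → ∀ β : HeightOneSpectrum (𝓞 K) → ℕ → Multiset ℂ, IsSystem β →
      ∀ w : Fin (Module.finrank ℚ K) → 𝓞 K, (∀ x : 𝓞 K, ∃ a : Fin (Module.finrank ℚ K) → ℤ, x = ∑ j, (a j : 𝓞 K) * w j) →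
      ∀ σ R ε : ℝ, ((k : ℝ) + 1) / 2 < σ → 0 < ε → ∃ y₀ : ℝ, ∀ H : ℕ,
        proportion H {c : (Σ i : Fin n, Fin (2 * g i + 1)) × Fin (Module.finrank ℚ K) → ℤ |
          ¬ Stable β e k σ R ε y₀ H (curves w c)} ≤ ε := by
  classical
  refine ⟨rk_zero e, rk_one e, ?_⟩
  intro k hk β hβ w hw σ R ε hσ hε
  obtain ⟨B, hB⟩ := hβ
  have hP : Pure β (B : ℝ) := by
    refine ⟨fun v i => by exact_mod_cast (hB v i).1, fun v i z hz => ?_⟩
    rw [sqrt_pow_rpow (two_le_norm v)]
    exact (hB v i).2 z hz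
  obtain ⟨δ, hδ⟩ : ∃ δ : ℝ, δ = min (ε / 2) 1 := ⟨_, rfl⟩
  have hδ0 : 0 < δ := by rw [hδ]; positivity
  have hδ1 : δ ≤ 1 := by rw [hδ]; exact min_le_right _ _
  have hδ2 : 2 * δ ≤ ε := by
    have : δ ≤ ε / 2 := by rw [hδ]; exact min_le_left _ _
    linarith
  obtain ⟨y0, hy0, h⟩ := stable (Nat.cast_nonneg B) hP g e k hk w hw hσ (R := max R 0) (δ := δ) (le_max_right _ _) hδ0
  refine ⟨y0, fun H => ?_⟩
  obtain ⟨M, hM0, hM1, hM2⟩ := h H
  -- reindexing
  obtain ⟨φ, hφ⟩ : ∃ φ : Fin (dm g) × Fin (Module.finrank ℚ K) ≃ (Σ i : Fin n, Fin (2 * g i + 1)) × Fin (Module.finrank ℚ K),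
    φ = Equiv.prodCongr (ixe g).symm (Equiv.refl _) := ⟨_, rfl⟩
  have hE : Pool.Agent.Y722.HS.EB H (fun c : (Σ i : Fin n, Fin (2 * g i + 1)) × Fin (Module.finrank ℚ K) → ℤ =>
      M (fun i => c (φ i))) ≤ δ := by
    rw [EB_reindex φ H M]
    exact hM1
  have h1 := prop_le (S := {c : (Σ i : Fin n, Fin (2 * g i + 1)) × Fin (Module.finrank ℚ K) → ℤ |
      ¬ Stable β e k σ R ε y0 H (curves w c)}) (M := fun c => M (fun i => c (φ i))) (fun c => hM0 _) hE ?_
  · unfold proportion
    exact h1.trans (by linarith)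
  · intro c hc
    by_contra hlt
    rw [not_le] at hlt
    apply hc
    intro s hs hsR y' y hy' hyy hyH
    have hy'0 : 0 ≤ y' := le_trans (Nat.cast_nonneg _) hy'
    obtain ⟨t, ht⟩ : ∃ t : Fin (dm g) → 𝓞 K, t = Q282.NF.combine w (fun i j => c (φ (i, j))) := ⟨_, rfl⟩
    have hcur : curves w c = crvs t := by
      funext i
      unfold curves crvs
      have e1 : (fun j : Fin (2 * g i + 1) => ∑ l, (c (⟨i, j⟩, l) : 𝓞 K) * w l) = blk t i := by
        funext j
        rw [ht]
        unfold blk Q282.NF.combine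
        refine Finset.sum_congr rfl fun l _ => ?_
        congr 3
        rw [hφ]
        show _ = ((ixe g).symm ((ixe g) ⟨i, j⟩), l)
        rw [Equiv.symm_apply_apply]
      rw [e1]
      rfl
    have hY7 : ⌊y⌋₊ ^ 7 ≤ H := by
      have h2 : ((⌊y⌋₊ : ℕ) : ℝ) ≤ y := Nat.floor_le (hy'0.trans hyy)
      have h3 : ((⌊y⌋₊ : ℕ) : ℝ) ^ 7 ≤ y ^ 7 := pow_le_pow_left₀ (by positivity) h2 7
      exact_mod_cast h3.trans hyH
    obtain ⟨E, hE, hE'⟩ := hM2 _ hlt s hs (hsR.trans (le_max_left _ _)) ⌊y'⌋₊ ⌊y⌋₊ (Nat.le_floor hy')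
      (Nat.floor_le_floor hyy) hY7
    rw [← ht] at hE
    rw [hcur, quotient_eq hP t hσ hs (hy'0.trans hyy), quotient_eq hP t hσ hs hy'0, prod_split _ (Nat.floor_le_floor hyy), hE]
    have h4 : (∏ v ∈ Wd K 0 ⌊y'⌋₊, rf β e k (crvs t) s v) * Complex.exp E - ∏ v ∈ Wd K 0 ⌊y'⌋₊, rf β e k (crvs t) s v =
        (Complex.exp E - 1) * ∏ v ∈ Wd K 0 ⌊y'⌋₊, rf β e k (crvs t) s v := by ring
    rw [h4, norm_mul]
    refine mul_le_mul_of_nonneg_right ?_ (norm_nonneg _)
    refine (Complex.norm_exp_sub_one_le (hE'.trans hδ1)).trans ?_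
    linarith

end Pool.Agent.Results.MP_223b32_ag.RandomProducts
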